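import Pool.Agent.Helper20.PQ.EX0
import Pool.Agent.Q278.KT.Fin

/-!
# Project PQ, piece EX: few poor blocks
-/

set_option autoImplicit false

namespace Pool.Agent.Helper20.PQ

/-- few blocks are poor -/
theorem t_EX : Pool.Agent.Helper91K1.PQ.S_EX := ex_of Pool.Agent.Q278.KT.mainp_half

end Pool.Agent.Helper20.PQ
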