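import Mathlib
import Pool.Agent.Q240.KS.Stm2
import Pool.Agent.Helper91K1.PQ.Stm

/-!
# Project PQ, piece EX: few poor blocks

The counting theorem `MAINP (1 / 2) 0.306` implies `Pool.Agent.Helper91K1.PQ.S_EX`.
-/

set_option autoImplicit false

open Filter Topology Finset

namespace Pool.Agent.Helper20.PQ

open Pool.Agent.Helper91K1.PQ Pool.Agent.Q240.KS

/-- the number of primes in a block -/
theorem pic_eq (a L : ℕ) : pic (a : ℝ) (L : ℝ) = pb a L := by
  unfold pic pb
  have e1 : ⌊(a : ℝ)⌋₊ = a := Nat.floor_natCast a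
  have e2 : ⌊(a : ℝ) + (L : ℝ)⌋₊ = a + L := by
    rw [← Nat.cast_add]
    exact Nat.floor_natCast (a + L)
  rw [e1, e2]

/-- the counting theorem implies that few blocks are poor -/
theorem ex_of (hmain : MAINP (1 / 2) 0.306) : S_EX := by
  classical
  obtain ⟨c₀, η, Y₀, hc₀, hη, hM⟩ := hmain
  refine ⟨c₀ / 6, min η (1 / 10), by positivity, lt_min hη (by norm_num), min_le_right _ _, ?_⟩
  set κ : ℝ := min η (1 / 10) with hκ
  have hκ0 : 0 < κ := lt_min hη (by norm_num)
  have hκ1 : κ ≤ η := min_le_left _ _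
  have hκ2 : κ ≤ 1 / 10 := min_le_right _ _
  intro b₁ b₂ hb₁ hb
  have hb₂ : 0 < b₂ := hb₁.trans hb
  set l₁ : ℝ := Real.log b₁ with hl₁
  set l₂ : ℝ := Real.log b₂ with hl₂
  have hl : l₁ ≤ l₂ := Real.log_le_log hb₁ hb.le
  set M : ℝ := (l₂ - l₁) / (2 / 5) + 1 with hMdef
  have hM0 : 1 ≤ M := by
    have : 0 ≤ (l₂ - l₁) / (2 / 5) := div_nonneg (by linarith) (by norm_num)
    linarith
  have hlog2 : 0 < Real.log 2 := Real.log_pos (by norm_num)
  have hlog2' : Real.log 2 < 1 := by linarith [Real.log_two_lt_d9]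
  -- the size of `X`
  set K : ℝ := max (max (max 1 ((Y₀ - l₁) / 2)) (max (-l₁ / 2) ((1 + (1 / 2 - κ) * |l₂|) / κ)))
    (max (max (9 / 8 * |l₁|) |l₂|) (max 3 ((Real.log M + 0.306 * |l₂|) / 0.138))) with hK
  have hev : ∀ᶠ X : ℕ in atTop, K ≤ Real.log X :=
    (Real.tendsto_log_atTop.comp tendsto_natCast_atTop_atTop).eventually_ge_atTop K
  filter_upwards [hev, eventually_ge_atTop 2] with X hX hX2
  set l : ℝ := Real.log X with hldef
  have k1 : 1 ≤ l := le_trans (le_trans (le_max_left _ _) (le_trans (le_max_left _ _) (le_max_left _ _))) hX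
  have k2 : (Y₀ - l₁) / 2 ≤ l :=
    le_trans (le_trans (le_max_right _ _) (le_trans (le_max_left _ _) (le_max_left _ _))) hX
  have k3 : -l₁ / 2 ≤ l :=
    le_trans (le_trans (le_max_left _ _) (le_trans (le_max_right _ _) (le_max_left _ _))) hX
  have k4 : (1 + (1 / 2 - κ) * |l₂|) / κ ≤ l :=
    le_trans (le_trans (le_max_right _ _) (le_trans (le_max_right _ _) (le_max_left _ _))) hX
  have k5 : 9 / 8 * |l₁| ≤ l :=
    le_trans (le_trans (le_max_left _ _) (le_trans (le_max_left _ _) (le_max_right _ _))) hX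
  have k6 : |l₂| ≤ l :=
    le_trans (le_trans (le_max_right _ _) (le_trans (le_max_left _ _) (le_max_right _ _))) hX
  have k7 : 3 ≤ l :=
    le_trans (le_trans (le_max_left _ _) (le_trans (le_max_right _ _) (le_max_right _ _))) hX
  have k8 : (Real.log M + 0.306 * |l₂|) / 0.138 ≤ l :=
    le_trans (le_trans (le_max_right _ _) (le_trans (le_max_right _ _) (le_max_right _ _))) hX
  have a1 := abs_le.mp (le_refl |l₁|)
  have a2 := abs_le.mp (le_refl |l₂|)
  have hX0 : (0 : ℝ) < X := by exact_mod_cast (by omega : 0 < X)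
  have hX1 : (1 : ℝ) ≤ X := by exact_mod_cast (by omega : 1 ≤ X)
  -- the length of the blocks
  set L : ℕ := Lb κ X with hL
  have hLle : (L : ℝ) ≤ (X : ℝ) ^ (1 - κ) := Nat.floor_le (by positivity)
  have hpow1 : (1 : ℝ) ≤ (X : ℝ) ^ (1 - κ) := Real.one_le_rpow hX1 (by linarith)
  have hL1 : 1 ≤ L := Nat.le_floor (by simpa using hpow1)
  have hL1R : (1 : ℝ) ≤ L := by exact_mod_cast hL1
  have hL0 : (0 : ℝ) < L := by linarith
  have hLge : (X : ℝ) ^ (1 - κ) / 2 ≤ L := by
    have : (X : ℝ) ^ (1 - κ) < (L : ℝ) + 1 := Nat.lt_floor_add_one _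
    linarith
  have hpowexp : (X : ℝ) ^ (1 - κ) = Real.exp ((1 - κ) * l) := by
    rw [Real.rpow_def_of_pos hX0, mul_comm]
  have hlogL : (1 - κ) * l - Real.log 2 ≤ Real.log L := by
    have h1 := Real.log_le_log (by positivity) hLge
    rw [Real.log_div (by positivity) (by norm_num), Real.log_rpow hX0] at h1
    exact h1
  have hlogL2 : l / 2 ≤ Real.log L := by
    have : 0.9 * l ≤ (1 - κ) * l := by nlinarith
    linarith
  have hLexp : Real.exp ((1 - κ) * l - Real.log 2) ≤ L := by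
    rw [← Real.exp_log hL0]
    exact Real.exp_le_exp.mpr hlogL
  -- the set
  set S : Set ℕ := {k : ℕ | b₁ * (X : ℝ) ^ 2 ≤ k * L ∧ ((k : ℝ) + 1) * L ≤ b₂ * (X : ℝ) ^ 2 ∧
    (pb (k * L) L : ℝ) < c₀ / 6 * L / Real.log L} with hS
  have hSfin : S.Finite := by
    apply (Set.finite_Iic ⌊b₂ * (X : ℝ) ^ 2⌋₊).subset
    rintro k ⟨-, h2, -⟩
    apply Nat.le_floor
    have hk0 : (0 : ℝ) ≤ k := Nat.cast_nonneg k
    nlinarith
  rw [Set.ncard_eq_toFinset_card S hSfin]
  set F : Finset ℕ := hSfin.toFinset with hF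
  have hmemF : ∀ k ∈ F, b₁ * (X : ℝ) ^ 2 ≤ k * L ∧ ((k : ℝ) + 1) * L ≤ b₂ * (X : ℝ) ^ 2 ∧
    (pb (k * L) L : ℝ) < c₀ / 6 * L / Real.log L := by
    intro k hk
    have := (Set.Finite.mem_toFinset hSfin).mp hk
    exact this
  have hlogb : ∀ k ∈ F, 0 < (k : ℝ) * L ∧ l₁ + 2 * l ≤ Real.log ((k : ℝ) * L) ∧
      Real.log ((k : ℝ) * L) ≤ l₂ + 2 * l := by
    intro k hk
    obtain ⟨h1, h2, -⟩ := hmemF k hk
    have hp : 0 < b₁ * (X : ℝ) ^ 2 := by positivity
    have hpos : 0 < (k : ℝ) * L := lt_of_lt_of_le hp h1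
    refine ⟨hpos, ?_, ?_⟩
    · have := Real.log_le_log hp h1
      rw [Real.log_mul hb₁.ne' (by positivity), Real.log_pow] at this
      push_cast at this
      exact this
    · have h3 : (k : ℝ) * L ≤ b₂ * (X : ℝ) ^ 2 := by nlinarith
      have := Real.log_le_log hpos h3
      rw [Real.log_mul hb₂.ne' (by positivity), Real.log_pow] at this
      push_cast at this
      exact this
  set f : ℕ → ℕ := fun k => ⌊(Real.log ((k : ℝ) * L) - (l₁ + 2 * l)) / (2 / 5)⌋₊ with hf
  set B : ℝ := Real.exp (0.306 * (l₂ + 2 * l)) with hB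
  have hB0 : 0 ≤ B := (Real.exp_pos _).le
  have hfib : ∀ a ∈ F.image f, (F.filter (fun k => f k = a)).card ≤ ⌊B⌋₊ := by
    intro a ha
    apply Nat.le_floor
    set T : Finset ℕ := F.filter (fun k => f k = a) with hT
    have hTm : ∀ k ∈ T, k ∈ F ∧ f k = a := fun k hk => Finset.mem_filter.mp hk
    set Y : ℝ := l₁ + 2 * l + 2 / 5 * a with hY
    have hfl : ∀ k ∈ T, Y ≤ Real.log ((k : ℝ) * L) ∧ Real.log ((k : ℝ) * L) ≤ Y + 2 / 5 := by
      intro k hk
      obtain ⟨hk1, hk2⟩ := hTm k hk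
      obtain ⟨-, h1, h2⟩ := hlogb k hk1
      have h3 : 0 ≤ (Real.log ((k : ℝ) * L) - (l₁ + 2 * l)) / (2 / 5) :=
        div_nonneg (by linarith) (by norm_num)
      have h4 := Nat.floor_le h3
      have h5 := Nat.lt_floor_add_one ((Real.log ((k : ℝ) * L) - (l₁ + 2 * l)) / (2 / 5))
      have h6 : ⌊(Real.log ((k : ℝ) * L) - (l₁ + 2 * l)) / (2 / 5)⌋₊ = a := hk2
      rw [h6] at h4 h5
      rw [le_div_iff₀ (by norm_num)] at h4
      rw [div_lt_iff₀ (by norm_num)] at h5
      constructor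
      · rw [hY]; linarith
      · rw [hY]; linarith
    have hYup : Y ≤ l₂ + 2 * l := by
      obtain ⟨k, hk, hk2⟩ := Finset.mem_image.mp ha
      have hkT : k ∈ T := Finset.mem_filter.mpr ⟨hk, hk2⟩
      exact (hfl k hkT).1.trans (hlogb k hk).2.2
    have hYlo : l₁ + 2 * l ≤ Y := by
      have : (0 : ℝ) ≤ a := Nat.cast_nonneg a
      rw [hY]; linarith
    have hY0 : 0 ≤ Y := by linarith
    have hinj : Set.InjOn (fun k : ℕ => (k : ℝ) * L) T := by
      intro k _ k' _ h
      have h1 : (k : ℝ) * L = k' * L := h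
      have h2 : (k : ℝ) = k' := mul_right_cancel₀ hL0.ne' h1
      exact_mod_cast h2
    have key := hM Y (by linarith) L ?_ ?_ (T.image (fun k : ℕ => (k : ℝ) * L)) ?_ ?_
    · rw [Finset.card_image_of_injOn hinj] at key
      refine key.trans ?_
      rw [hB]
      apply Real.exp_le_exp.mpr
      nlinarith
    · refine le_trans (Real.exp_le_exp.mpr ?_) hLexp
      have h1 : (1 - 1 / 2 - η) * Y ≤ (1 / 2 - κ) * Y := by nlinarith
      have h2 : (1 / 2 - κ) * Y ≤ (1 / 2 - κ) * (l₂ + 2 * l) :=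
        mul_le_mul_of_nonneg_left hYup (by linarith)
      have h3 : (1 / 2 - κ) * l₂ ≤ (1 / 2 - κ) * |l₂| :=
        mul_le_mul_of_nonneg_left (le_abs_self _) (by linarith)
      rw [div_le_iff₀ hκ0] at k4
      nlinarith
    · rw [hpowexp] at hLle
      refine hLle.trans (Real.exp_le_exp.mpr ?_)
      have h1 : (1 - κ) * l ≤ 1 * l := mul_le_mul_of_nonneg_right (by linarith) (by linarith)
      linarith
    · intro y hy
      obtain ⟨k, hk, rfl⟩ := Finset.mem_image.mp hy
      obtain ⟨hk1, hk2⟩ := hTm k hk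
      refine ⟨(hlogb k hk1).1, ?_, ?_⟩
      · have := hfl k hk
        rw [abs_le]
        constructor
        · linarith
        · linarith
      · have h1 := (hmemF k hk1).2.2
        have h2 : pic ((k : ℝ) * L) L = pb (k * L) L := by
          rw [← pic_eq]
          push_cast
          rfl
        show (pic ((k : ℝ) * L) L : ℝ) < c₀ * L / Y
        rw [h2]
        refine lt_of_lt_of_le h1 ?_
        have hYpos : 0 < Y := by
          have : 0 < l₁ + 2 * l := by linarith
          linarith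
        have hY3 : Y ≤ 3 * l := by linarith
        rw [div_le_div_iff₀ (by linarith) hYpos]
        have h3 : c₀ / 6 * L * Y ≤ c₀ / 6 * L * (3 * l) :=
          mul_le_mul_of_nonneg_left hY3 (by positivity)
        have h4 : c₀ * L * (l / 2) ≤ c₀ * L * Real.log L :=
          mul_le_mul_of_nonneg_left hlogL2 (by positivity)
        have h5 : c₀ / 6 * L * (3 * l) = c₀ * L * (l / 2) := by ring
        exact h3.trans (h5.le.trans h4)
    · intro y hy y' hy' hne
      obtain ⟨k, hk, rfl⟩ := Finset.mem_image.mp hy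
      obtain ⟨k', hk', rfl⟩ := Finset.mem_image.mp hy'
      have hkk : k ≠ k' := fun h => hne (by rw [h])
      show (L : ℝ) ≤ |(k : ℝ) * L - k' * L|
      rw [← sub_mul, abs_mul, abs_of_pos hL0]
      have h1 : (1 : ℝ) ≤ |(k : ℝ) - k'| := by
        have h2 : (1 : ℤ) ≤ |(k : ℤ) - k'| := Int.one_le_abs (sub_ne_zero.mpr (by exact_mod_cast hkk))
        exact_mod_cast h2
      nlinarith
  have hcard := Finset.card_le_mul_card_image (f := f) F ⌊B⌋₊ hfib
  have him : ((F.image f).card : ℝ) ≤ M := by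
    have hsub : F.image f ⊆ Finset.range (⌊(l₂ - l₁) / (2 / 5)⌋₊ + 1) := by
      intro a ha
      obtain ⟨k, hk, rfl⟩ := Finset.mem_image.mp ha
      obtain ⟨-, h1, h2⟩ := hlogb k hk
      apply Finset.mem_range.mpr
      apply Nat.lt_succ_of_le
      apply Nat.floor_le_floor
      apply div_le_div_of_nonneg_right _ (by norm_num)
      linarith
    have h1 := Finset.card_le_card hsub
    rw [Finset.card_range] at h1
    have h2 : ((F.image f).card : ℝ) ≤ (⌊(l₂ - l₁) / (2 / 5)⌋₊ : ℝ) + 1 := by exact_mod_cast h1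
    have h3 := Nat.floor_le (show 0 ≤ (l₂ - l₁) / (2 / 5) from div_nonneg (by linarith) (by norm_num))
    rw [hMdef]
    linarith
  have h1 : (F.card : ℝ) ≤ B * M := by
    have h3 : (F.card : ℝ) ≤ (⌊B⌋₊ : ℝ) * ((F.image f).card : ℝ) := by exact_mod_cast hcard
    have h4 := Nat.floor_le hB0
    exact h3.trans (mul_le_mul h4 him (Nat.cast_nonneg _) hB0)
  refine h1.trans ?_
  have hMexp : M = Real.exp (Real.log M) := (Real.exp_log (by linarith)).symm
  rw [Real.rpow_def_of_pos hX0, hB, hMexp, ← Real.exp_add]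
  apply Real.exp_le_exp.mpr
  rw [div_le_iff₀ (by norm_num)] at k8
  have h5 : Real.log (X : ℝ) = l := rfl
  rw [h5]
  linarith

end Pool.Agent.Helper20.PQ
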